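import Mathlib
import Pool.Agent.Lib_helper76.LD.Defs2
import Pool.Agent.Lib_helper76.LD.ClusterS

/-!
LD block B2: the 2-slices of the top form have small rank (sign-rank version).
-/

set_option autoImplicit false

namespace Pool.Agent.Lib_helper76.LD

open Finset

theorem b_sg_sum {ι : Type} (s : Finset ι) (u : ι → ZMod 2) :
    sg (∑ i ∈ s, u i) = ∏ i ∈ s, sg (u i) := by
  classical
  induction s using Finset.induction_on with
  | empty => simp [sg]
  | insert i s hi ih => rw [Finset.sum_insert hi, Finset.prod_insert hi, sg_add, ih]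

theorem b_fac_prod {X Y ι : Type} (s : Finset ι) (r : ℕ) (G : ι → X → Y → ℝ)
    (h : ∀ i ∈ s, Fac r (G i)) : Fac (r ^ s.card) (fun x y => ∏ i ∈ s, G i x y) := by
  classical
  induction s using Finset.induction_on with
  | empty =>
    simpa using (Fac.const (X := X) (Y := Y) 1)
  | insert i s hi ih =>
    have h1 := (h i (Finset.mem_insert_self _ _)).mul
      (ih fun j hj => h j (Finset.mem_insert_of_mem hj))
    rw [Finset.card_insert_of_notMem hi, pow_succ, mul_comm]
    simpa only [Finset.prod_insert hi] using h1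

theorem b_split {d : ℕ} {M : Type} [AddCommMonoid M] (a b : Fin d) (hab : a ≠ b)
    (F : Finset (Fin d) → M) :
    ∑ S : Finset (Fin d), F S = ∑ J ∈ ((univ : Finset (Fin d)) \ {a, b}).powerset,
      ((F J + F (insert b J)) + (F (insert a J) + F (insert a (insert b J)))) := by
  classical
  have h1 : (univ : Finset (Fin d)) = insert a (insert b (univ \ {a, b})) := by
    ext i
    simp only [mem_univ, mem_insert, mem_sdiff, mem_singleton, true_and, true_iff]
    tauto
  have ha : a ∉ insert b ((univ : Finset (Fin d)) \ {a, b}) := by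
    simp [hab]
  have hb : b ∉ (univ : Finset (Fin d)) \ {a, b} := by simp
  rw [← Finset.powerset_univ, h1, Finset.sum_powerset_insert ha, Finset.sum_powerset_insert hb,
    Finset.sum_powerset_insert hb, ← h1]
  simp only [Finset.sum_add_distrib]

theorem b_orth {n : ℕ} (w : Fin n → ZMod 2) (hw : w ≠ 0) :
    ∑ x : Fin n → ZMod 2, sg (∑ i, x i * w i) = 0 := by
  classical
  obtain ⟨j, hj⟩ := Function.ne_iff.mp hw
  have hj1 : w j = 1 := by
    have : ∀ t : ZMod 2, t ≠ 0 → t = 1 := by decide
    exact this _ hj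
  have h1 : ∑ x : Fin n → ZMod 2, sg (∑ i, x i * w i) =
      ∑ x : Fin n → ZMod 2, sg (∑ i, (x + (Pi.single j 1 : Fin n → ZMod 2)) i * w i) :=
    (Equiv.sum_comp (Equiv.addRight (Pi.single j (1 : ZMod 2)))
      (fun x : Fin n → ZMod 2 => sg (∑ i, x i * w i))).symm
  have h2 : ∀ x : Fin n → ZMod 2, sg (∑ i, (x + (Pi.single j 1 : Fin n → ZMod 2)) i * w i) =
      - sg (∑ i, x i * w i) := by
    intro x
    have h3 : ∑ i, (x + (Pi.single j 1 : Fin n → ZMod 2)) i * w i = ∑ i, x i * w i + 1 := by
      simp only [Pi.add_apply, add_mul, Finset.sum_add_distrib]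
      congr 1
      rw [Finset.sum_eq_single j]
      · simp [hj1]
      · intro i _ hi
        simp [Pi.single_eq_of_ne hi]
      · simp
    rw [h3, sg_add]
    simp [sg]
  simp only [h2, Finset.sum_neg_distrib] at h1
  linarith

/-- the bilinear expansion of a slice -/
theorem b_expand {n d : ℕ}
    (T : MultilinearMap (ZMod 2) (fun _ : Fin d => Fin n → ZMod 2) (ZMod 2))
    (z : Fin d → Fin n → ZMod 2) (a b : Fin d) (hab : a ≠ b) (x y : Fin n → ZMod 2) :
    T (Function.update (Function.update z a x) b y) =
      ∑ i, x i * ((Matrix.of fun i j : Fin n => T (Function.update (Function.update z a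
        (Pi.single i 1)) b (Pi.single j 1))).mulVecLin y) i := by
  classical
  have hlin : ∀ (m : Fin d → Fin n → ZMod 2) (c : Fin d) (v : Fin n → ZMod 2),
      T (Function.update m c v) = ∑ i, v i * T (Function.update m c (Pi.single i 1)) := by
    intro m c v
    have h1 : v = ∑ i, v i • (Pi.single i (1 : ZMod 2) : Fin n → ZMod 2) := pi_eq_sum_univ' v
    conv_lhs => rw [h1]
    have h2 := map_sum (T.toLinearMap m c) (fun i => v i • (Pi.single i (1 : ZMod 2) :
      Fin n → ZMod 2)) univ
    simp only [map_smul, MultilinearMap.toLinearMap_apply, smul_eq_mul] at h2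
    exact h2
  rw [Function.update_comm hab, hlin]
  refine Finset.sum_congr rfl fun i _ => ?_
  rw [Function.update_comm hab.symm, hlin]
  simp only [Matrix.mulVecLin_apply, Matrix.mulVec, dotProduct, Matrix.of_apply]
  congr 1
  exact Finset.sum_congr rfl fun j _ => mul_comm _ _

theorem slice_rank_sign_pr (n d L : ℕ) (f : (Fin n → ZMod 2) → ZMod 2)
    (T : MultilinearMap (ZMod 2) (fun _ : Fin d => Fin n → ZMod 2) (ZMod 2))
    (hT : ∀ h x, T h = der f h x)
    (G : (Fin n → ZMod 2) → (Fin n → ZMod 2) → ℝ)
    (hG : ∀ x y, 0 < sg (f (x + y)) * G x y) (hr : Fac (2 ^ L) G)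
    (z : Fin d → Fin n → ZMod 2) (a b : Fin d) (hab : a ≠ b) :
    (Matrix.of fun i j : Fin n => T (Function.update (Function.update z a (Pi.single i 1)) b
      (Pi.single j 1))).rank ≤ 2 ^ (d + 1) * L + 1 := by
  classical
  set M := (Matrix.of fun i j : Fin n => T (Function.update (Function.update z a
    (Pi.single i 1)) b (Pi.single j 1))) with hM
  set P : Finset (Finset (Fin d)) := ((univ : Finset (Fin d)) \ {a, b}).powerset with hP
  set Q : (Fin n → ZMod 2) → ZMod 2 := fun x => ∑ J ∈ P, f (x + ∑ j ∈ J, z j) with hQ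
  -- the form in terms of `Q`
  have hform : ∀ x y, T (Function.update (Function.update z a x) b y) =
      Q (x + y) + (Q x + (Q y + Q 0)) := by
    intro x y
    rw [hT _ 0, der, b_split a b hab]
    have h1 : ∀ J ∈ P, a ∉ J ∧ b ∉ J := by
      intro J hJ
      rw [hP, Finset.mem_powerset] at hJ
      constructor
      · intro ha
        have := hJ ha
        simp at this
      · intro hb
        have := hJ hb
        simp at this
    have h2 : ∀ J ∈ P, ∑ i ∈ J, Function.update (Function.update z a x) b y i =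
        ∑ i ∈ J, z i := by
      intro J hJ
      refine Finset.sum_congr rfl fun i hi => ?_
      have hia : i ≠ a := fun h => (h1 J hJ).1 (h ▸ hi)
      have hib : i ≠ b := fun h => (h1 J hJ).2 (h ▸ hi)
      rw [Function.update_of_ne hib, Function.update_of_ne hia]
    have h3 : ∀ J ∈ P, ∑ i ∈ insert b J, Function.update (Function.update z a x) b y i =
        y + ∑ i ∈ J, z i := by
      intro J hJ
      rw [Finset.sum_insert (h1 J hJ).2, h2 J hJ, Function.update_self]
    have h4 : ∀ J ∈ P, ∑ i ∈ insert a J, Function.update (Function.update z a x) b y i =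
        x + ∑ i ∈ J, z i := by
      intro J hJ
      rw [Finset.sum_insert (h1 J hJ).1, h2 J hJ, Function.update_of_ne hab,
        Function.update_self]
    have h5 : ∀ J ∈ P, ∑ i ∈ insert a (insert b J),
        Function.update (Function.update z a x) b y i = x + y + ∑ i ∈ J, z i := by
      intro J hJ
      have h6 : a ∉ insert b J := by
        simp only [mem_insert, not_or]
        exact ⟨hab, (h1 J hJ).1⟩
      rw [Finset.sum_insert h6, h3 J hJ, Function.update_of_ne hab, Function.update_self,
        add_assoc]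
    have h7 : ∀ J ∈ P, ((f (0 + ∑ i ∈ J, Function.update (Function.update z a x) b y i) +
        f (0 + ∑ i ∈ insert b J, Function.update (Function.update z a x) b y i)) +
        (f (0 + ∑ i ∈ insert a J, Function.update (Function.update z a x) b y i) +
        f (0 + ∑ i ∈ insert a (insert b J), Function.update (Function.update z a x) b y i))) =
        f (x + y + ∑ i ∈ J, z i) + (f (x + ∑ i ∈ J, z i) + (f (y + ∑ i ∈ J, z i) +
          f (0 + ∑ i ∈ J, z i))) := by
      intro J hJ
      rw [h2 J hJ, h3 J hJ, h4 J hJ, h5 J hJ]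
      simp only [zero_add]
      abel
    rw [Finset.sum_congr rfl h7]
    simp only [Finset.sum_add_distrib, hQ]
  -- the factorisation
  set R : ℕ := 2 ^ (2 ^ d * L) with hR
  have hcP : P.card ≤ 2 ^ d := by
    calc P.card ≤ Fintype.card (Finset (Fin d)) := Finset.card_le_univ _
      _ = 2 ^ d := by simp
  have hfac : Fac R (fun x y => ∏ J ∈ P, G (x + ∑ j ∈ J, z j) y) := by
    refine Fac.mono ?_ (b_fac_prod P (2 ^ L) (fun J x y => G (x + ∑ j ∈ J, z j) y)
      (fun J _ => hr.sub_maps (fun x => x + ∑ j ∈ J, z j) id))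
    rw [hR, ← pow_mul, mul_comm (2 ^ d) L]
    exact Nat.pow_le_pow_right (by norm_num) (Nat.mul_le_mul_left _ hcP)
  have hpos : ∀ x y, 0 < sg (Q (x + y)) * ∏ J ∈ P, G (x + ∑ j ∈ J, z j) y := by
    intro x y
    rw [hQ]
    simp only
    rw [b_sg_sum, ← Finset.prod_mul_distrib]
    refine Finset.prod_pos fun J _ => ?_
    have h1 := hG (x + ∑ j ∈ J, z j) y
    have h2 : x + ∑ j ∈ J, z j + y = x + y + ∑ j ∈ J, z j := by abel
    rwa [h2] at h1
  -- representatives
  have hc : ∀ v : LinearMap.range M.mulVecLin, ∃ y, M.mulVecLin y = v := fun v => v.2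
  choose c hc using hc
  have hval : ∀ x (v : LinearMap.range M.mulVecLin),
      (∑ i, x i * (v : Fin n → ZMod 2) i) = Q (x + c v) + (Q x + (Q (c v) + Q 0)) := by
    intro x v
    rw [← hform, b_expand T z a b hab, ← hM, hc v]
  have hcl := cluster_sign (V := Fin n → ZMod 2) (I := LinearMap.range M.mulVecLin) R
    Nat.one_le_two_pow
    (fun x v => sg (∑ i, x i * (v : Fin n → ZMod 2) i))
    (fun x v => sg (Q x) * (∏ J ∈ P, G (x + ∑ j ∈ J, z j) (c v)) * sg (Q (c v) + Q 0))
    (fun x v => sg_mul_self _)
    (by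
      intro x v
      simp only [hval x v, sg_add (Q (x + c v)), sg_add (Q x)]
      have h1 := hpos x (c v)
      have h2 := sg_mul_self (Q x)
      have h3 := sg_mul_self (Q (c v) + Q 0)
      calc 0 < sg (Q (x + c v)) * ∏ J ∈ P, G (x + ∑ j ∈ J, z j) (c v) := h1
        _ = (sg (Q (x + c v)) * ∏ J ∈ P, G (x + ∑ j ∈ J, z j) (c v)) * (sg (Q x) * sg (Q x)) *
            (sg (Q (c v) + Q 0) * sg (Q (c v) + Q 0)) := by rw [h2, h3, mul_one, mul_one]
        _ = _ := by ring)
    ((hfac.sub_maps id c).scale (fun x => sg (Q x)) (fun v => sg (Q (c v) + Q 0)))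
    (by
      intro v v' hvv
      have h1 : ∀ x : Fin n → ZMod 2, sg (∑ i, x i * (v : Fin n → ZMod 2) i) *
          sg (∑ i, x i * (v' : Fin n → ZMod 2) i) =
          sg (∑ i, x i * ((v : Fin n → ZMod 2) + v') i) := by
        intro x
        rw [← sg_add, ← Finset.sum_add_distrib]
        congr 1
        exact Finset.sum_congr rfl fun i _ => by rw [Pi.add_apply, mul_add]
      simp only [h1]
      rw [b_orth, abs_zero]
      · positivity
      · intro h2
        apply hvv
        apply Subtype.ext
        funext i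
        have h3 := congrFun h2 i
        simp only [Pi.add_apply, Pi.zero_apply] at h3
        have : ∀ s t : ZMod 2, s + t = 0 → s = t := by decide
        exact this _ _ h3)
  have hcard : Fintype.card (LinearMap.range M.mulVecLin) = 2 ^ M.rank := by
    rw [Module.card_eq_pow_finrank (K := ZMod 2), ZMod.card]
    rfl
  have h8 : 2 ^ M.rank ≤ 2 ^ (2 ^ (d + 1) * L + 1) := by
    calc 2 ^ M.rank ≤ 2 * R ^ 2 := by rw [← hcard]; exact hcl
      _ = 2 ^ (2 ^ (d + 1) * L + 1) := by
        rw [hR, ← pow_mul, ← pow_succ']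
        congr 1
        ring
  exact (Nat.pow_le_pow_iff_right (by norm_num)).mp h8

end Pool.Agent.Lib_helper76.LD
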