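import Mathlib
import Pool.Agent.Lib_helper76.LD.Defs2
import Pool.Agent.Lib_helper10.LogRank.Proto

/-!
LD block F: one step of the protocol and the base case.
-/

set_option autoImplicit false

namespace Pool.Agent.Lib_helper76.LD

open Finset
open Pool.Agent.Lib_helper10.LogRank (Protocol CCOn sendA sendB)

/-- pull back of a protocol -/
def f_map {X Y X' Y' : Type} (α : X → X') (β : Y → Y') : Protocol X' Y' → Protocol X Y
  | .leaf b => .leaf b
  | .alice s t₀ t₁ => .alice (fun x => s (α x)) (f_map α β t₀) (f_map α β t₁)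
  | .bob s t₀ t₁ => .bob (fun y => s (β y)) (f_map α β t₀) (f_map α β t₁)

theorem f_map_cost {X Y X' Y' : Type} (α : X → X') (β : Y → Y') (π : Protocol X' Y') :
    (f_map α β π).cost = π.cost := by
  induction π with
  | leaf b => rfl
  | alice s t₀ t₁ h0 h1 => simp only [f_map, Protocol.cost, h0, h1]
  | bob s t₀ t₁ h0 h1 => simp only [f_map, Protocol.cost, h0, h1]

theorem f_map_eval {X Y X' Y' : Type} (α : X → X') (β : Y → Y') (π : Protocol X' Y') (x : X)
    (y : Y) : (f_map α β π).eval x y = π.eval (α x) (β y) := by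
  induction π with
  | leaf b => rfl
  | alice s t₀ t₁ h0 h1 => simp only [f_map, Protocol.eval, h0, h1]
  | bob s t₀ t₁ h0 h1 => simp only [f_map, Protocol.eval, h0, h1]

theorem f_lowDeg {V W : Type*} [AddCommGroup V] [AddCommGroup W] (e : W →+ V) (d : ℕ) :
    ∀ f : V → ZMod 2, LowDeg d f → LowDeg d (fun w => f (e w)) := by
  induction d with
  | zero =>
    intro f hf x y
    exact hf _ _
  | succ d ih =>
    intro f hf h
    have h1 := ih _ (hf (e h))
    simpa only [map_add] using h1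

theorem xor_step_sign_pr (n c d L B : ℕ) (f : (Fin n → ZMod 2) → ZMod 2)
    (G : (Fin n → ZMod 2) → (Fin n → ZMod 2) → ℝ)
    (hG : ∀ x y, 0 < sg (f (x + y)) * G x y) (hr : Fac (2 ^ L) G)
    (ψ : (Fin n → ZMod 2) →ₗ[ZMod 2] (Fin c → ZMod 2))
    (hψ : ∀ x₀ : Fin n → ZMod 2, LowDeg d (fun x : LinearMap.ker ψ => f (x₀ + x)))
    (H : ∀ (n' : ℕ) (f' : (Fin n' → ZMod 2) → ZMod 2), LowDeg d f' →
      ∀ G' : (Fin n' → ZMod 2) → (Fin n' → ZMod 2) → ℝ,
      (∀ x y, 0 < sg (f' (x + y)) * G' x y) → Fac (2 ^ L) G' → XorCC f' B) :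
    XorCC f (2 * c + B) := by
  classical
  have hcard : Fintype.card (Fin c → ZMod 2) ≤ 2 ^ c := by simp [ZMod.card]
  have key : CCOn (fun (_ _ : Fin n → ZMod 2) => True) (fun x y => decide (f (x + y) = 1))
      (B + c + c) := by
    refine sendA (fun x : Fin n → ZMod 2 => ψ x) hcard fun l => ?_
    refine sendB (fun y : Fin n → ZMod 2 => ψ y) hcard fun l' => ?_
    by_cases h1 : ∃ x₀, ψ x₀ = l
    swap
    · exact ⟨Protocol.leaf true, Nat.zero_le _, fun x y hxy => absurd ⟨x, hxy.1.2⟩ h1⟩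
    by_cases h2 : ∃ y₀, ψ y₀ = l'
    swap
    · exact ⟨Protocol.leaf true, Nat.zero_le _, fun x y hxy => absurd ⟨y, hxy.2⟩ h2⟩
    obtain ⟨x₀, hx₀⟩ := h1
    obtain ⟨y₀, hy₀⟩ := h2
    let e : (Fin (Module.finrank (ZMod 2) (LinearMap.ker ψ)) → ZMod 2) ≃ₗ[ZMod 2]
        LinearMap.ker ψ := (Module.finBasis (ZMod 2) (LinearMap.ker ψ)).equivFun.symm
    have hf' : LowDeg d (fun w => f (x₀ + y₀ + (e w : Fin n → ZMod 2))) :=
      f_lowDeg e.toLinearMap.toAddMonoidHom d _ (hψ (x₀ + y₀))
    obtain ⟨π, hπ1, hπ2⟩ := H _ _ hf'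
      (fun w w' => G (x₀ + (e w : Fin n → ZMod 2)) (y₀ + (e w' : Fin n → ZMod 2))) (by
        intro w w'
        have h3 := hG (x₀ + (e w : Fin n → ZMod 2)) (y₀ + (e w' : Fin n → ZMod 2))
        have h4 : x₀ + (e w : Fin n → ZMod 2) + (y₀ + (e w' : Fin n → ZMod 2)) =
            x₀ + y₀ + (e (w + w') : Fin n → ZMod 2) := by
          rw [map_add, Submodule.coe_add]
          abel
        rw [h4] at h3
        exact h3) (hr.sub_maps _ _)
    let α : (Fin n → ZMod 2) → (Fin n → ZMod 2) →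
        (Fin (Module.finrank (ZMod 2) (LinearMap.ker ψ)) → ZMod 2) := fun u x =>
      if h : x - u ∈ LinearMap.ker ψ then e.symm ⟨x - u, h⟩ else 0
    have hα : ∀ u x, ψ x = ψ u → (e (α u x) : Fin n → ZMod 2) = x - u := by
      intro u x hx
      have h3 : x - u ∈ LinearMap.ker ψ := by
        rw [LinearMap.mem_ker, map_sub, hx, sub_self]
      simp only [α, dif_pos h3, LinearEquiv.apply_symm_apply]
    refine ⟨f_map (α x₀) (α y₀) π, ?_, fun x y hxy => ?_⟩
    · rw [f_map_cost]
      exact hπ2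
    · rw [f_map_eval, hπ1]
      show decide (f (x₀ + y₀ + (e (α x₀ x + α y₀ y) : Fin n → ZMod 2)) = 1) =
        decide (f (x + y) = 1)
      rw [map_add, Submodule.coe_add, hα x₀ x (hxy.1.2.trans hx₀.symm),
        hα y₀ y (hxy.2.trans hy₀.symm)]
      have h4 : x₀ + y₀ + (x - x₀ + (y - y₀)) = x + y := by abel
      rw [h4]
  obtain ⟨π, h1, h2⟩ := key
  exact ⟨π, fun x y => h2 x y trivial, h1.trans (by omega)⟩

theorem xor_base_pr (n : ℕ) (f : (Fin n → ZMod 2) → ZMod 2) (hf : LowDeg 1 f) : XorCC f 2 := by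
  have h1 : ∀ x y, f (x + y) = f x + (f y + f 0) := by
    intro x y
    have h2 : f (x + y) + f x = f (0 + y) + f 0 := hf y x 0
    rw [zero_add] at h2
    have h3 := z2_add_self (f x)
    calc f (x + y) = f (x + y) + f x + f x := by rw [add_assoc, h3, add_zero]
      _ = f x + (f y + f 0) := by rw [h2, add_comm]
  refine ⟨Protocol.alice (fun x => decide (f x = 1))
    (Protocol.bob (fun y => decide (f y + f 0 = 1)) (Protocol.leaf false) (Protocol.leaf true))
    (Protocol.bob (fun y => decide (f y + f 0 = 1)) (Protocol.leaf true) (Protocol.leaf false)),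
    fun x y => ?_, by simp [Protocol.cost]⟩
  have h2 : ∀ a b : ZMod 2, (if decide (a = 1) = true then
      if decide (b = 1) = true then false else true
      else if decide (b = 1) = true then true else false) = decide (a + b = 1) := by decide
  rw [h1]
  exact h2 _ _

end Pool.Agent.Lib_helper76.LD
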